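import Pool.Agent.H613.HT.Mah
import Pool.Graph.R_seed8.H629R2.HT.Grad
import Pool.Graph.R_seed8.H629R2.HT.Poly
import Pool.Graph.R_seed8.H629R2.HT.Seg3
import Pool.Graph.R_seed8.H629R2.HT.Aue
import Pool.Graph.R_seed8.H629R2.HT.Simp

/-!
# MP_87489e: the Holmes-Thompson case in dimension three

The least value of the translative constant for the Holmes-Thompson volume, over all convex bodies
of `ℝ ^ 3`, is `16 / π`; it is attained by simplices.
-/

set_option autoImplicit false

namespace Pool.Agent.Results.MP_87489e_co.HolmesThompsonMin3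

open MeasureTheory Set
open scoped Pointwise

/-- A convex body: a compact convex set with nonempty interior. -/
structure IsConvexBody {d : ℕ} (K : Set (Fin d → ℝ)) : Prop where
  isCompact : IsCompact K
  convex : Convex ℝ K
  interior_nonempty : (interior K).Nonempty

/-- The unit ball `M = (K - K)/2` of the relative norm of `K`. -/
def relBall {d : ℕ} (K : Set (Fin d → ℝ)) : Set (Fin d → ℝ) := (1 / 2 : ℝ) • (K - K)

/-- The polar body. -/
def polar {d : ℕ} (M : Set (Fin d → ℝ)) : Set (Fin d → ℝ) := {y | ∀ x ∈ M, x ⬝ᵥ y ≤ 1}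

/-- The volume of the Euclidean unit ball of `ℝ ^ d`. -/
noncomputable def kappa (d : ℕ) : ENNReal :=
  volume (Metric.closedBall (0 : EuclideanSpace ℝ (Fin d)) 1)

/-- The Holmes-Thompson volume of `S` for the norm with unit ball `M`. -/
noncomputable def htVol {d : ℕ} (M S : Set (Fin d → ℝ)) : ENNReal :=
  volume (polar M) / kappa d * volume S

/-- The maximal Holmes-Thompson volume, in the relative norm of `K`, of the convex hull of the
union of `K` and a translate of `K` that meets `K`. -/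
noncomputable def cTr {d : ℕ} (K : Set (Fin d → ℝ)) : ENNReal :=
  ⨆ (p : Fin d → ℝ) (_ : ((p +ᵥ K) ∩ K).Nonempty),
    htVol (relBall K) (convexHull ℝ (K ∪ (p +ᵥ K)))

/-- The simplex with vertices `0, e_0, e_1, e_2`. -/
def simplex : Set (Fin 3 → ℝ) := {x | (∀ i, 0 ≤ x i) ∧ ∑ i, x i ≤ 1}

/-- The least value of `cTr K` over all convex bodies `K` in `ℝ ^ 3` is `16 / π`; it is attained
by the simplex, and for every convex body some single translation gives at least this value. -/
theorem result :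
    IsLeast {c : ENNReal | ∃ K : Set (Fin 3 → ℝ), IsConvexBody K ∧ cTr K = c}
      (ENNReal.ofReal (16 / Real.pi)) ∧
    (IsConvexBody simplex ∧ cTr simplex = ENNReal.ofReal (16 / Real.pi)) ∧
    ∀ K : Set (Fin 3 → ℝ), IsConvexBody K → ∃ p : Fin 3 → ℝ, ((p +ᵥ K) ∩ K).Nonempty ∧
      ENNReal.ofReal (16 / Real.pi) ≤
        htVol (relBall K) (convexHull ℝ (K ∪ (p +ᵥ K))) := by
  have hsimp : H629R2.HT.S_simp := H629R2.HT.S_simp_proof
  have hpoly : H629R2.HT.S_poly := H629R2.HT.S_poly_proof H629R2.HT.S_grad_proof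
  have hlow : ∀ K : Set (Fin 3 → ℝ), IsConvexBody K → ∃ p : Fin 3 → ℝ,
      ((p +ᵥ K) ∩ K).Nonempty ∧ ENNReal.ofReal (16 / Real.pi) ≤
        htVol (relBall K) (convexHull ℝ (K ∪ (p +ᵥ K))) := fun K hK =>
    H629R2.HT.ht_final_lower hpoly H629R2.HT.S_seg3_proof H629R2.HT.S_aue_proof
      H613.HT.S_mah_proof ⟨hK.isCompact, hK.convex, hK.interior_nonempty⟩
  have hlow' : ∀ K : Set (Fin 3 → ℝ), IsConvexBody K →
      ENNReal.ofReal (16 / Real.pi) ≤ cTr K := by
    intro K hK
    obtain ⟨p, hp, h⟩ := hlow K hK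
    exact le_iSup_of_le p (le_iSup_of_le hp h)
  have hS : IsConvexBody simplex := ⟨hsimp.1.comp, hsimp.1.conv, hsimp.1.int⟩
  have hSv : cTr simplex = ENNReal.ofReal (16 / Real.pi) :=
    le_antisymm (iSup_le fun p => iSup_le fun hp =>
      H629R2.HT.ht_final_upper hpoly H629R2.HT.S_seg3_proof H629R2.HT.S_aue_proof
        H613.HT.S_mah_proof hsimp hp) (hlow' _ hS)
  refine ⟨⟨⟨simplex, hS, hSv⟩, ?_⟩, ⟨hS, hSv⟩, hlow⟩
  rintro c ⟨K, hK, rfl⟩
  exact hlow' K hK

end Pool.Agent.Results.MP_87489e_co.HolmesThompsonMin3
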